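import Pool.Agent.N208.KP.Main

set_option autoImplicit false

/-!
# Products of K3 surfaces and hyperkähler varieties: all de Rham-Betti classes are Hodge classes

Let `A` be an abelian variety over `ℚ̄` which is isogenous to a product `A_1 × … × A_m` of abelian
varieties without nonzero homomorphisms between different factors. Let `𝔤` be the Lie algebra of the
Hodge group of `A`; it acts on `H_1(A_i, ℚ)` through the Lie algebra `𝔤_i` of the Hodge group of `A_i`,
but it may be smaller than the product of the `𝔤_i`.

**Theorem.** Assume that for each `i` the Lie algebra `𝔤_i` is simple over `ℚ`, and that it is of spin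
type: `𝔤_i ⊗ ℂ` is a sum of `k_i` orthogonal Lie algebras `so(r_i)` with `r_i ≥ 6`, which acts on
`H_1(A_i, ℂ)` by tensor products of spin representations (`IsSpin`). Assume that `r_i = 8` for at most
one `i`. Then:

1. all de Rham-Betti classes in `H^1(A) ^ {⊗ 2m} (m)` are Hodge classes, for all `m`;
2. more generally let `M` be a motive in the tensor category generated by `h^1(A)` and the Tate
   motives, with the matrix `P` of periods, and let `G` be any algebraic group over `ℚ` such that the
   comparison isomorphism of `M` is a point of a torsor of `G` defined over `ℚ̄`. Then `G` contains the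
   Mumford-Tate group of `M`. (So also the de Rham-Betti classes in all tensor powers of `M` and of its
   dual are Hodge classes, and the classes with coefficients in `ℚ̄` which are in the de Rham
   realization over `ℚ̄` are combinations of Hodge classes.)

## Kuga-Satake varieties

The hypothesis about a factor is satisfied by the Kuga-Satake variety `A_i` of a polarised Hodge
structure `T_i` of K3 type whose field `F_i` of endomorphisms is totally real, `r_i` the dimension of
`T_i` over `F_i` (theorem of Zarhin, see `KugaSatake` in this folder; the Lie algebra of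
`Res_{F/ℚ} SO(T)` is simple over `ℚ`, since `F` is a field), and by its powers. So the theorem is about
arbitrary products `X_1 × … × X_m` of K3 surfaces, hyperkähler varieties and cubic fourfolds over `ℚ̄`
whose transcendental lattices `T_i` have totally real endomorphism fields and ranks at least six over
them (for example all K3 surfaces with Picard number at most `16` and `F = ℚ`): by the theorems of
Deligne and André the Kuga-Satake correspondence is motivated, so all de Rham-Betti classes on all
products of powers of the `X_i` are Hodge classes, and motivated. `KugaSatake` is the case of one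
factor, that is, of the powers of one `X`. The new point are the classes which mix different `X_i`:
a priori the period torsor of a product could be the graph of an isomorphism between factors of the
groups of the `X_i` (for example if `SO(T_1)` and `SO(T_2)` are isomorphic, or for K3 surfaces with
transcendental lattices which are isometric but not as Hodge structures).

If there are nonzero homomorphisms between `A_i` and `A_j`, both have an isogeny factor in common,
and `𝔤` acts on `A_i × A_j` through the graph of an isomorphism of `𝔤_i` and `𝔤_j`, which is given by a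
similitude of `T_i` and `T_j` if the rank is not eight; then `A_i × A_j` is again of spin type, and
one takes it as one factor. The condition on rank eight excludes isomorphisms which are given by
triality.

## Proof

Let `𝔮` be a Lie subalgebra of `𝔤` which acts semisimply on `H_1(A, ℚ)` with the same commutant as `𝔤`
(by the theorem of Schneider and Lang the Lie algebra of `G` gives such a subalgebra,
`N208.AM.qM_full`). The image of `𝔮` in `𝔤_i` is `𝔤_i` by the theorem on the subalgebras which generate
the even Clifford algebra (`SP.main_col`). By the lemmas of Goursat and Ribet it remains to see that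
`𝔮` does not act on `A_i × A_j` through the graph of an isomorphism `θ : 𝔤_i → 𝔤_j` (`kr_pair`).
If it does, let `x` be the element `E_a E_b / 2` of `𝔤_i ⊗ ℂ`, a generator of a rotation in a plane.
One has `ad(x)³ = - ad(x)`, and so the element `Y` of one of the summands `so(r)` of `𝔤_j ⊗ ℂ` that
corresponds to `θ(x)` satisfies `ad(Y)³ = - ad(Y)` and has the same Killing form as `x`. A contraction
of this identity gives `(r - 8) (Y³ + Y) = 0` (`contr`), so `Y` is a rotation in a plane if `r ≠ 8`,
and `θ(x)² = - 1 / 4` in the spin representation (`th_rot`). Therefore `2 θ(E_a E_b / 2)` satisfy the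
relations of the `E_a E_b`, and by averaging over the finite group which they generate one gets a
nonzero operator `H_1(A_i, ℂ) → H_1(A_j, ℂ)` which intertwines `x` and `θ(x)` (`one_col`, `link`). It
commutes with `𝔮`, so with `𝔤`, and its rational components are homomorphisms between `A_i` and
`A_j`, a contradiction.
-/

open Module Matrix Pool.Agent.Y102 Pool.Agent.W516.DR Pool.Agent.H204R3.GP

noncomputable section

namespace Pool.Agent.Results.MP_bf54cf_ag.ProductsOfK3

variable {g : ℕ} (A : AbVar g)

/-! ### Classes and the Lie algebra -/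

/-- The multilinear forms in `2m` variables in the rational homology. -/
abbrev Form (m : ℕ) : Type := MultilinearMap ℚ (fun _ : Fin m × Fin 2 => A.H1) ℚ

/-- `φ` is a de Rham-Betti class in `H^1(A) ^ {⊗ 2m} (m)`. -/
def IsDRB {m : ℕ} (φ : Form A m) : Prop :=
  IsDeRhamBettiForm QBar A.dR (2 * Real.pi * Complex.I) m φ

/-- `φ` is a Hodge class in `H^1(A) ^ {⊗ 2m} (m)`. -/
def IsHodge {m : ℕ} (φ : Form A m) : Prop := IsHodgeTensor (A.per : A.H1 →+ (Fin g → ℂ)) φ

/-- The endomorphism `X` annihilates the form `φ` (as a derivation). -/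
def Annihilates {m : ℕ} (X : Module.End ℚ A.H1) (φ : Form A m) : Prop :=
  ∀ v, ∑ k, φ (Function.update v k (X (v k))) = 0

/-- `X` is in the Lie algebra `𝔤`: it annihilates all classes that are Hodge classes and
de Rham-Betti classes. By the theorem of Deligne (Hodge classes on abelian varieties are absolute
Hodge classes) this is the Lie algebra of the Hodge group of `A`. -/
def InLie (X : Module.End ℚ A.H1) : Prop :=
  ∀ (m : ℕ) (φ : Form A m), IsHodge A φ → IsDRB A φ → Annihilates A X φ

/-! ### Products -/

/-- The `P i` are the projectors for an isogeny of `A` with a product of nonzero abelian varieties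
without homomorphisms between different factors. (The endomorphisms of the de Rham-Betti object
`H_1(A)` are the endomorphisms of `A` up to isogeny, by the theorem of Bost, which is proved in
`Pool.Agent.Y102.AbVar.hodge_end`.) -/
structure IsProduct {m : ℕ} (P : Fin m → Module.End ℚ A.H1) : Prop where
  endo : ∀ i, IsDeRhamBettiEnd QBar A.dR (P i)
  idem : ∀ i, P i * P i = P i
  orth : ∀ i j, i ≠ j → P i * P j = 0
  sum : ∑ i, P i = 1
  nonzero : ∀ i, P i ≠ 0
  hom : ∀ i j, i ≠ j → ∀ Q : Module.End ℚ A.H1, IsDeRhamBettiEnd QBar A.dR Q →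
    P i * Q * P j = 0

/-- The Lie algebra of the Hodge group of the factor with the projector `P`: the image of `𝔤`. -/
def factorLie (P : Module.End ℚ A.H1) : Submodule ℚ (Module.End ℚ A.H1) :=
  Submodule.span ℚ {Y | ∃ X, InLie A X ∧ Y = P * X}

/-- The commutator. -/
def bracket (X Y : Module.End ℚ A.H1) : Module.End ℚ A.H1 := X * Y - Y * X

/-- `J` is an ideal of the Lie algebra `L`. -/
def IsIdeal (J L : Submodule ℚ (Module.End ℚ A.H1)) : Prop :=
  J ≤ L ∧ ∀ X ∈ L, ∀ Y ∈ J, bracket A X Y ∈ J

/-- The Lie algebra of the factor has no nontrivial ideals. -/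
def IsSimple (P : Module.End ℚ A.H1) : Prop :=
  ∀ J, IsIdeal A J (factorLie A P) → J = ⊥ ∨ J = factorLie A P

/-- The algebra of the endomorphisms of `H_1(A, ℂ)`, as matrices for the basis of the lattice. -/
abbrev EndC (_ : AbVar g) : Type := Matrix (Fin (2 * g)) (Fin (2 * g)) ℂ

/-- The matrix of the extension of an endomorphism of `H_1(A, ℚ)` to `H_1(A, ℂ)`. -/
def toC (X : Module.End ℚ A.H1) : EndC A := Matrix.of fun i j => (X (Pi.single j 1) i : ℂ)

/-- The Lie algebra of the factor over `ℂ`, acting on the image of `P` in `H_1(A, ℂ)`. -/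
def factorLieC (P : Module.End ℚ A.H1) : Submodule ℂ (EndC A) :=
  Submodule.span ℂ {Y | ∃ X, InLie A X ∧ Y = toC A (P * X)}

/-- The `E a` are the generators of a Clifford algebra acting on the image of `P` in `H_1(A, ℂ)`. -/
def Clifford (P : Module.End ℚ A.H1) {N : ℕ} (E : Fin N → EndC A) : Prop :=
  (∀ a, toC A P * E a = E a ∧ E a * toC A P = E a) ∧ (∀ a, E a * E a = toC A P) ∧
    ∀ a b, a ≠ b → E a * E b = -(E b * E a)

/-- The factor with the projector `P` is of spin type: its Lie algebra over `ℂ` is a sum of `k`
orthogonal Lie algebras `so(r)`, acting by spin representations. Here `N = k r` and each of the `k`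
colours is the colour of exactly `r` of the generators. -/
def IsSpin (P : Module.End ℚ A.H1) (r : ℕ) : Prop :=
  ∃ (N k : ℕ) (E : Fin N → EndC A) (c : Fin N → Fin k), 0 < k ∧ Clifford A P E ∧
    (∀ σ, (Finset.univ.filter fun a => c a = σ).card = r) ∧
    factorLieC A P = Submodule.span ℂ {Y | ∃ a b, a ≠ b ∧ c a = c b ∧ Y = E a * E b}

/-- `A` is isogenous to a product of abelian varieties of spin type with simple Lie algebras and of
sizes at least six, with at most one of size eight, and without homomorphisms between different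
factors. -/
def IsProductOfSpinType : Prop :=
  ∃ (m : ℕ) (P : Fin m → Module.End ℚ A.H1) (r : Fin m → ℕ), IsProduct A P ∧
    (∀ i, IsSimple A (P i) ∧ 6 ≤ r i ∧ IsSpin A (P i) (r i)) ∧
    ∀ i j, r i = 8 → r j = 8 → i = j

/-! ### Motives -/

variable {s n : ℕ} (r : Fin s → ℕ) (w : Fin s → ℤ)

/-- The Betti realization of the sum of the motives `h^1(A) ^ {⊗ r i} (w i)`: families of multilinear
forms in `r i` variables in the rational homology. -/
abbrev Tensors : Type := ∀ i : Fin s, MultilinearMap ℚ (fun _ : Fin (r i) => A.H1) ℚ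

variable {A r}

/-- `M` is the matrix of the action of the endomorphism `X` of the rational homology of `A` (as a
derivation) on the space of tensors with the basis `B`. -/
def IsLieMatrix (B : Fin n → Tensors A r) (X : Module.End ℚ A.H1)
    (M : Matrix (Fin n) (Fin n) ℚ) : Prop :=
  ∀ a i v, ∑ k, B a i (Function.update v k (X (v k))) = ∑ b, M b a * B b i v

/-- The subspace with the basis `B` is the Betti realization of a direct factor `M` of the sum of the
motives `h^1(A) ^ {⊗ r i} (w i)`, and `P` is the matrix of the periods of `M` for the basis `B` and for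
some basis of the de Rham realization of `M` over `ℚ̄`. -/
structure IsMotive (B : Fin n → Tensors A r) (P : Matrix (Fin n) (Fin n) ℂ) : Prop where
  /-- `B` is a basis of a subspace -/
  basis : LinearIndependent ℚ B
  /-- the subspace is stable under `𝔤` -/
  lie : ∀ X, InLie A X → ∃ M : Matrix (Fin n) (Fin n) ℚ, IsLieMatrix B X M
  /-- the subspace is stable under the weights -/
  weight : ∃ M : Matrix (Fin n) (Fin n) ℚ, ∀ a i v,
    ((r i : ℚ) - 2 * w i) * B a i v = ∑ b, M b a * B b i v
  /-- the de Rham realization has a basis of elements with algebraic coefficients in terms of the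
  tensor products of the elements of the basis of `H^1_dR(A / ℚ̄)` -/
  deRham : ∃ c : Fin n → ∀ i : Fin s, (Fin (r i) → Fin g ⊕ Fin g) → ℂ,
    (∀ a i J, IsAlgebraic ℚ (c a i J)) ∧ ∀ a i (v : Fin (r i) → A.H1),
      ∑ J, c a i J * ∏ k, A.dR (J k) (v k) =
        (2 * Real.pi * Complex.I) ^ (w i) * ∑ b, P b a * (B b i v : ℂ)
  /-- the matrix of the periods is invertible -/
  det : P.det ≠ 0

/-! ### Algebraic groups, torsors and the Mumford-Tate group -/

/-- A subgroup of `GL_R(ℂ)` defined by polynomials with rational coefficients. -/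
def IsAlgebraicSubgroup {R : Type} [Fintype R] [DecidableEq R] (G : Subgroup (GL R ℂ)) : Prop :=
  ∃ I : Set (MvPolynomial (R × R) ℚ), ∀ x : GL R ℂ, x ∈ G ↔
    ∀ p ∈ I, MvPolynomial.aeval (fun b : R × R => (x : Matrix R R ℂ) b.1 b.2) p = 0

/-- The torsor `G · T⁻¹` of `G`: the matrices `F` such that `F T` is an element of `G`. It is
defined over `ℚ̄` if `T` is a matrix with algebraic entries. -/
def torsor (G : Subgroup (GL (Fin n) ℂ)) (T : Matrix (Fin n) (Fin n) ℂ) :
    Set (Matrix (Fin n) (Fin n) ℂ) :=
  {F | ∃ x ∈ G, (x : Matrix (Fin n) (Fin n) ℂ) = F * T}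

variable (A) in
/-- The Hodge structure of `H^1(A)`: the complex number `z` acts on `H_1(A, ℝ) = ℂ ^ g` by
multiplication, and on `H^1(A, ℝ)` by the transposed map, here in the basis of `H^1(A, ℚ)` which is
dual to the basis of the lattice. -/
def hodge (z : ℂ) : Matrix (Fin (2 * g)) (Fin (2 * g)) ℂ :=
  Matrix.of fun i j => ((A.lam.repr (z • A.lam i) j : ℝ) : ℂ)

/-- `R` is the matrix of the action of the complex number `z` on `M`, in the Hodge structure given by
those of `H^1(A)` and of the Tate motives (`z` acts on `ℚ(1)` by `(z z̄)⁻¹`). -/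
def IsHodgeMatrix (B : Fin n → Tensors A r) (z : ℂ) (R : Matrix (Fin n) (Fin n) ℂ) : Prop :=
  ∀ a i (j : Fin (r i) → Fin (2 * g)),
    ∑ j' : Fin (r i) → Fin (2 * g), (∏ k, hodge A z (j k) (j' k)) *
        (B a i (fun k => Pi.single (j' k) 1) : ℂ) =
      (z * (starRingEnd ℂ) z) ^ (w i) * ∑ b, R b a * (B b i (fun k => Pi.single (j k) 1) : ℂ)

/-- The Mumford-Tate group of `M`: the smallest algebraic group over `ℚ` which contains the image of
the Deligne torus. -/
def mumfordTate (B : Fin n → Tensors A r) : Subgroup (GL (Fin n) ℂ) :=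
  sInf {G | IsAlgebraicSubgroup G ∧ ∀ z : ℂ, z ≠ 0 → ∃ x ∈ G,
    IsHodgeMatrix w B z (x : Matrix (Fin n) (Fin n) ℂ)}

/-- The torsor form for the motive with the basis `B` and the matrix `P` of periods: all algebraic
groups over `ℚ` with a torsor over `ℚ̄` which contains `P` contain the Mumford-Tate group. -/
def TorsorForm (B : Fin n → Tensors A r) (P : Matrix (Fin n) (Fin n) ℂ) : Prop :=
  ∀ G : Subgroup (GL (Fin n) ℂ), IsAlgebraicSubgroup G → ∀ T : Matrix (Fin n) (Fin n) ℂ,
    (∀ i j, IsAlgebraic ℚ (T i j)) → P ∈ torsor G T → mumfordTate w B ≤ G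

/-! ### The theorem -/

/-- The conversion of the hypotheses. -/
theorem blocks {g : ℕ} {A : AbVar g} {m : ℕ} {P : Fin m → Module.End ℚ A.H1} {r : Fin m → ℕ}
    (hP : IsProduct A P) (hs : ∀ i, IsSimple A (P i) ∧ 6 ≤ r i ∧ IsSpin A (P i) (r i))
    (h8 : ∀ i j, r i = 8 → r j = 8 → i = j) : N208.KP.Blocks A P r := by
  have hcom : ∀ i, ∀ X ∈ A.NA, X * P i = P i * X := fun i X hX =>
    A.NA_comm hX (A.mem_EA.2 (hP.endo i))
  have hfac : ∀ i, factorLie A (P i) = N208.KP.blk A P i := by
    intro i
    refine le_antisymm (Submodule.span_le.2 ?_) ?_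
    · rintro _ ⟨X, hX, rfl⟩
      exact ⟨X, hX, rfl⟩
    · rintro _ ⟨X, hX, rfl⟩
      exact Submodule.subset_span ⟨X, hX, rfl⟩
  refine ⟨hP.idem, hP.orth, hP.sum, hcom, fun i j hij Q hQ => ?_, fun i J hJ hbr => ?_,
    hP.nonzero, fun i => (hs i).2.1, h8, fun i => ?_⟩
  · exact hP.hom i j hij Q (A.mem_EA.1 fun X hX => hQ X (A.LA_le_NA hX))
  · rw [← hfac] at hJ ⊢
    refine (hs i).1 J ⟨hJ, fun X hX Y hY => ?_⟩
    rw [hfac] at hX
    obtain ⟨X, hX, rfl⟩ := hX
    have h1 := hJ hY
    rw [hfac] at h1
    obtain ⟨Z, hZ, hZY⟩ := h1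
    have h2 : P i * Y = Y := by
      rw [← hZY]
      change P i * (P i * Z) = P i * Z
      rw [← mul_assoc, hP.idem]
    have h3 : Y * P i = Y := by
      rw [← hZY]
      change P i * Z * P i = P i * Z
      rw [mul_assoc, hcom i Z hZ, ← mul_assoc, hP.idem]
    have h4 := hbr X hX Y hY
    have h5 : P i * X * Y - Y * (P i * X) = X * Y - Y * X := by
      rw [← hcom i X hX, mul_assoc, h2, hcom i X hX, ← mul_assoc, h3]
    change P i * X * Y - Y * (P i * X) ∈ J
    rw [h5]
    exact h4
  · obtain ⟨N, k, E, c, hk, ⟨e1, e2, e3⟩, hc, hl⟩ := (hs i).2.2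
    have hN : 0 < N := by
      have h1 := hc ⟨0, hk⟩
      by_contra h0
      have h2 : N = 0 := by omega
      subst h2
      have h3 : (Finset.univ.filter fun a : Fin 0 => c a = ⟨0, hk⟩) = ∅ := by
        ext x
        exact x.elim0
      rw [h3, Finset.card_empty] at h1
      have h4 := (hs i).2.1
      omega
    have hPC : matE (2 * g) (toC A (P i)) = (P i).baseChange ℂ := matE_toC (P i)
    refine ⟨N, k, fun a => matE (2 * g) (E a), c, hN, ⟨fun a => ?_, fun a b hab => ?_, fun a => ?_,
      fun a => ?_, fun a => hc (c a), ?_⟩⟩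
    · rw [← map_mul, e2, hPC]
    · rw [← map_mul, e3 a b hab, map_neg, map_mul]
    · rw [← hPC, ← map_mul, (e1 a).1]
    · rw [← hPC, ← map_mul, (e1 a).2]
    · have h1 : (cx A.NA).map (LinearMap.mulLeft ℂ ((P i).baseChange ℂ)) =
          (factorLieC A (P i)).map (matE (2 * g)).toLinearMap := by
        unfold factorLieC cx extEnd
        rw [Submodule.map_span, Submodule.map_span]
        congr 1
        ext Y
        constructor
        · rintro ⟨_, ⟨X, hX, rfl⟩, rfl⟩
          refine ⟨_, ⟨X, hX, rfl⟩, ?_⟩
          change matE (2 * g) (Y102.toC (P i * X)) = (P i).baseChange ℂ * X.baseChange ℂ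
          rw [matE_toC, ← bc_mul]
        · rintro ⟨_, ⟨X, hX, rfl⟩, rfl⟩
          refine ⟨_, ⟨X, hX, rfl⟩, ?_⟩
          change (P i).baseChange ℂ * X.baseChange ℂ = matE (2 * g) (Y102.toC (P i * X))
          rw [matE_toC, ← bc_mul]
      rw [h1, hl, Submodule.map_span]
      unfold SP.soC
      congr 1
      ext Y
      constructor
      · rintro ⟨_, ⟨i, j, a, b, rfl⟩, rfl⟩
        exact ⟨i, j, a, b, map_mul (matE (2 * g)) _ _⟩
      · rintro ⟨i, j, a, b, rfl⟩
        exact ⟨_, ⟨i, j, a, b, rfl⟩, map_mul (matE (2 * g)) _ _⟩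

/-- **Theorem.** Let `A` be isogenous to a product of abelian varieties of spin type with simple Lie
algebras and of sizes at least six, with at most one of size eight, and without homomorphisms between
different factors. Then all de Rham-Betti classes on the powers of `A` are Hodge classes, and for every
motive `M` in the tensor category generated by `h^1(A)` and the Tate motives, all algebraic groups over
`ℚ` with a torsor over `ℚ̄` which contains the matrix of the periods of `M` contain the Mumford-Tate
group of `M`. -/
theorem result {g : ℕ} (A : AbVar g) (hA : IsProductOfSpinType A) :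
    (∀ (m : ℕ) (φ : Form A m), IsDRB A φ → IsHodge A φ) ∧
    ∀ {s n : ℕ} (r : Fin s → ℕ) (w : Fin s → ℤ) (B : Fin n → Tensors A r)
      (P : Matrix (Fin n) (Fin n) ℂ), IsMotive w B P → TorsorForm w B P := by
  obtain ⟨m, Q, d, hQ, hs, h8⟩ := hA
  have hb := blocks hQ hs h8
  refine ⟨fun m φ hφ => hb.hodge hφ, ?_⟩
  intro s n r w B P hM G hG T hT hP
  obtain ⟨hM', Wt, hW⟩ : N208.AM.Mot w B P ∧ ∃ Wt, N208.AM.WRel w B Wt := by
    have hwt : ∃ M, N208.AM.WRel w B M := by
      obtain ⟨M, h⟩ := hM.weight
      refine ⟨M, fun a i => MultilinearMap.ext fun v => ?_⟩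
      rw [_root_.smul_apply, _root_.sum_apply, smul_eq_mul, h a i v]
      rfl
    refine ⟨⟨hM.basis, fun X hX => ?_, hwt, hM.det, hM.deRham⟩, hwt⟩
    obtain ⟨M, h⟩ := hM.lie X hX
    refine ⟨M, fun a i => MultilinearMap.ext fun v => ?_⟩
    rw [N208.AM.dact_apply, _root_.sum_apply, h a i v]
    rfl
  have hb' : ∀ j : Fin (2 * g), A.bas j = Pi.single j 1 := fun j => by
    unfold AbVar.bas
    rw [Pi.basisFun_apply]
  have hrel : ∀ z R, N208.AM.HRel w B z R → IsHodgeMatrix w B z R := by
    intro z R h a i j
    have h1 := h a i j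
    simp only [hb'] at h1
    exact h1
  have hdet : T.det ≠ 0 := by
    obtain ⟨x, -, hxT⟩ := hP
    intro h0
    have h1 : (x : Matrix (Fin n) (Fin n) ℂ).det = 0 := by
      rw [hxT, Matrix.det_mul, h0, mul_zero]
    exact (Matrix.GeneralLinearGroup.det x).ne_zero h1
  obtain ⟨T', h1, h2⟩ := Pool.Agent.R917.alg_inv hT hdet
  obtain ⟨x, hx, hxT⟩ := hP
  have hH : N208.AM.PtM P _ := ⟨Pool.Agent.R917.algGrp_of hG, T, T', h1, h2, x, hx, hxT⟩
  refine sInf_le ⟨hG, fun z hz => ?_⟩
  obtain ⟨R, ⟨y, hy, hyR⟩, h4⟩ := N208.KP.main_perf hb.perf (fun 𝔮 hq => hb.full hq) hM' hW hH hz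
  refine ⟨y, hy, ?_⟩
  rw [hyR]
  exact hrel _ _ h4

end Pool.Agent.Results.MP_bf54cf_ag.ProductsOfK3
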