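import Pool.Agent.N208.TS.Main

set_option autoImplicit false

/-!
# The square of the adjoint motive decides the torsor form for motives of abelian type

Let `A` be an abelian variety over `ℚ̄` and let `M` be any André motive over `ℚ̄` in the tensor
category generated by `h^1(A)` and the Tate motives. (By theorems of André this class of motives,
for all `A`, contains the motives of products of curves, abelian varieties, K3 surfaces,
hyperkähler varieties, cubic fourfolds and Fermat hypersurfaces.) Let `P` be the matrix of the periods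
of `M`, and let `G ⊆ GL(H_B(M))` be *any* algebraic group over `ℚ` such that the comparison
isomorphism of `M` is a point of a torsor of `G` defined over `ℚ̄`: `P T ∈ G(ℂ)` for some matrix `T`
with algebraic entries. The torsor form of the conjecture on de Rham-Betti classes says that `G`
contains the Mumford-Tate group of `M`; equivalently, for all `a` and `b`, all de Rham-Betti classes in
`M ^ {⊗ a} ⊗ M^∨ ^ {⊗ b}` are Hodge classes. A priori this is a condition on infinitely many tensors.

**Theorem.** One of the following holds.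

* There is a de Rham-Betti endomorphism of `M ⊗ M` which is not a Hodge class, and which is a
  combination of endomorphisms `X ⊗ Y` with `X` and `Y` in the Lie algebra of the Hodge group of `M`
  (the Betti realization of the adjoint motive `ad M ⊆ End M`): a de Rham-Betti class in
  `ad M ⊗ ad M` which is not a Hodge class.
* `G` contains the derived group of `MT(M)`: for all elements `Z` of the derived algebra of the Lie
  algebra of the Hodge group of `M`, and all complex numbers `t`, the matrix `exp (t Z)` is in `G`.
  If moreover `A` has no factor of type IV, or the centre of the Lie algebra of the Hodge group acts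
  trivially on `M`, then `G` contains `MT(M)`.

So for the motives of abelian type (without factors of type IV) the torsor form follows from, and is
equivalent to, the statement that the de Rham-Betti classes of tensor degree 4 in `M ⊗ M ⊗ M^∨ ⊗ M^∨`
are Hodge classes, and only those in `ad M ⊗ ad M` are needed: the torsor form for all the motives in
the tensor category of `M` is equivalent to `End_dRB (ad M) = End_Hodge (ad M)`. If `M` is the motive
of a smooth projective variety `X`, these are classes on `X ^ 4`.

## Motives

As `h^1(A)` is dual to `h^1(A)(1)`, the motive `M` is a direct factor of a sum of motives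
`h^1(A) ^ {⊗ r i} (w i)`. Its Betti realization is a space of families of multilinear forms with
rational values, in `r i` variables in `H_1(A, ℚ)`, with a basis `B`. It is the image of a motivated
projector, and the realizations of motivated classes are Hodge classes and de Rham-Betti classes; so
it is stable under the Lie algebra `𝔤` of the endomorphisms of `H_1(A, ℚ)` which annihilate all
classes that are Hodge classes and de Rham-Betti classes (`InLie`), and under the weights. The de Rham
realization has a basis which consists of combinations of products of elements of `H^1_dR(A / ℚ̄)`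
with algebraic coefficients. The matrix `P` of the periods expresses it in terms of the basis
`(2 π i) ^ (w i) B` of the Betti realization (`IsMotive`). By the theorem of Deligne `𝔤` is the Lie
algebra of the Hodge group of `A`, and its image in the endomorphisms of `M` is the Lie algebra of
the Hodge group of `M`.

Nothing is assumed about periods: `AbVar` is the description of an abelian variety over `ℚ̄` by theta
functions (see `Pool/Agent/Y102/AVDefs.lean`, where it is explained why every abelian variety has it),
and the transcendence theorems which are used, the theorem of Schneider and Lang and the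
transcendence of `π`, are proved in this repository.

## Proof

Let `L` be the Lie algebra of `G`, `ρ` the action of `𝔤` on `M`, and let `𝔮` be the set of the `X` in
`𝔤` such that `ρ(X)` is in `L` up to a multiple of the weight operator. By the theorem of Schneider and
Lang `𝔮` acts semisimply on `H_1(A, ℚ)`, with the same commutant as `𝔤` (`qM_full`). By the
polarization the trace form of `H_1(A, ℚ)` is not degenerate on `𝔮` (`trace_full`). Let `C` be the image
of its Casimir element in `ρ(𝔤) ⊗ ρ(𝔤)` (`casM`). The logarithmic derivatives of `P` for the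
derivations of `ℂ` over `ℚ̄` have their components in `ρ(𝔮)`, up to weights, so they commute with `C`
(`cas_log`), and `C` is a de Rham-Betti class (`cas_alg`). If `C` is a Hodge class, all rational
components `ρ(X)` of the complex structure `N` of `M` commute with `C`; then `X` normalizes `𝔮`, since
the trace form is not degenerate on the ideal `ker ρ` (`cas_norm`). As the trace form is not degenerate
on `𝔮` and the commutant of `𝔮` is that of `𝔤`, such an `X` is the sum of an element of `𝔮` and of a
central element (`norm_dec`). Hence `N` is in the real span of `ρ` of the centre of `𝔤` and of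
`[𝔮, 𝔮]`, and `ρ([𝔮, 𝔮]) ⊆ L`.
-/

open Module Matrix Pool.Agent.Y102 Pool.Agent.W516.DR Pool.Agent.H204R3.GP

open scoped Kronecker

noncomputable section

namespace Pool.Agent.Results.MP_f11a48_ag.TensorSquareDecides

variable {g : ℕ} (A : AbVar g)

/-! ### The Lie algebra -/

/-- The multilinear forms in `2m` variables in the rational homology. -/
abbrev Form (m : ℕ) : Type := MultilinearMap ℚ (fun _ : Fin m × Fin 2 => A.H1) ℚ

/-- `φ` is a de Rham-Betti class in `H^1(A) ^ {⊗ 2m} (m)`. -/
def IsDRB {m : ℕ} (φ : Form A m) : Prop :=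
  IsDeRhamBettiForm QBar A.dR (2 * Real.pi * Complex.I) m φ

/-- `φ` is a Hodge class in `H^1(A) ^ {⊗ 2m} (m)`. -/
def IsHodge {m : ℕ} (φ : Form A m) : Prop := IsHodgeTensor (A.per : A.H1 →+ (Fin g → ℂ)) φ

/-- The endomorphism `X` annihilates the form `φ` (as a derivation). -/
def Annihilates {m : ℕ} (X : Module.End ℚ A.H1) (φ : Form A m) : Prop :=
  ∀ v, ∑ k, φ (Function.update v k (X (v k))) = 0

/-- `X` is in the Lie algebra `𝔤`: it annihilates all classes that are Hodge classes and
de Rham-Betti classes. -/
def InLie (X : Module.End ℚ A.H1) : Prop :=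
  ∀ (m : ℕ) (φ : Form A m), IsHodge A φ → IsDRB A φ → Annihilates A X φ

/-! ### Motives -/

variable {s n : ℕ} (r : Fin s → ℕ) (w : Fin s → ℤ)

/-- The Betti realization of the sum of the motives `h^1(A) ^ {⊗ r i} (w i)`: families of multilinear
forms in `r i` variables in the rational homology. -/
abbrev Tensors : Type := ∀ i : Fin s, MultilinearMap ℚ (fun _ : Fin (r i) => A.H1) ℚ

variable {A r}

/-- `M` is the matrix of the action of the endomorphism `X` of the rational homology of `A` (as a
derivation) on the space of tensors with the basis `B`. -/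
def IsLieMatrix (B : Fin n → Tensors A r) (X : Module.End ℚ A.H1)
    (M : Matrix (Fin n) (Fin n) ℚ) : Prop :=
  ∀ a i v, ∑ k, B a i (Function.update v k (X (v k))) = ∑ b, M b a * B b i v

/-- The subspace with the basis `B` is the Betti realization of a direct factor `M` of the sum of the
motives `h^1(A) ^ {⊗ r i} (w i)`, and `P` is the matrix of the periods of `M` for the basis `B` and for
some basis of the de Rham realization of `M` over `ℚ̄`. -/
structure IsMotive (B : Fin n → Tensors A r) (P : Matrix (Fin n) (Fin n) ℂ) : Prop where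
  /-- `B` is a basis of a subspace -/
  basis : LinearIndependent ℚ B
  /-- the subspace is stable under `𝔤` -/
  lie : ∀ X, InLie A X → ∃ M : Matrix (Fin n) (Fin n) ℚ, IsLieMatrix B X M
  /-- the subspace is stable under the weights -/
  weight : ∃ M : Matrix (Fin n) (Fin n) ℚ, ∀ a i v,
    ((r i : ℚ) - 2 * w i) * B a i v = ∑ b, M b a * B b i v
  /-- the de Rham realization has a basis of elements with algebraic coefficients in terms of the
  tensor products of the elements of the basis of `H^1_dR(A / ℚ̄)` -/
  deRham : ∃ c : Fin n → ∀ i : Fin s, (Fin (r i) → Fin g ⊕ Fin g) → ℂ,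
    (∀ a i J, IsAlgebraic ℚ (c a i J)) ∧ ∀ a i (v : Fin (r i) → A.H1),
      ∑ J, c a i J * ∏ k, A.dR (J k) (v k) =
        (2 * Real.pi * Complex.I) ^ (w i) * ∑ b, P b a * (B b i v : ℂ)
  /-- the matrix of the periods is invertible -/
  det : P.det ≠ 0

/-! ### The Hodge structure -/

/-- `N` is the matrix of the action on `M` of the multiplication with `i` on `H_1(A, ℝ) = ℂ ^ g` (as a
derivation): the generator of the Lie algebra of the circle in the Hodge structure of `M`. -/
def IsComplexStructure (B : Fin n → Tensors A r) (N : Matrix (Fin n) (Fin n) ℝ) : Prop :=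
  ∀ a i (j : Fin (r i) → Fin (2 * g)),
    ∑ k, ∑ l : Fin (2 * g), A.lam.repr (Complex.I • A.lam (j k)) l *
        (B a i (Function.update (fun p => Pi.single (j p) 1) k (Pi.single l 1)) : ℝ) =
      ∑ b, N b a * (B b i (fun p => Pi.single (j p) 1) : ℝ)

/-- The Lie algebra of the Hodge group of `M`: the smallest rational Lie algebra whose real span
contains the complex structure `N`. -/
def hodgeLie (N : Matrix (Fin n) (Fin n) ℝ) : Submodule ℚ (Matrix (Fin n) (Fin n) ℚ) :=
  sInf {L | (∀ x ∈ L, ∀ y ∈ L, x * y - y * x ∈ L) ∧
    N ∈ Submodule.span ℝ {M | ∃ x ∈ L, M = x.map fun q => (q : ℝ)}}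

/-- The derived algebra. -/
def derived (L : Submodule ℚ (Matrix (Fin n) (Fin n) ℚ)) :
    Submodule ℚ (Matrix (Fin n) (Fin n) ℚ) :=
  Submodule.span ℚ {z | ∃ x ∈ L, ∃ y ∈ L, z = x * y - y * x}

/-- The centre of the Lie algebra acts trivially: an element of `𝔤` which acts on `M` like a central
element acts trivially. -/
def CentreActsTrivially (B : Fin n → Tensors A r) : Prop :=
  ∀ X, InLie A X → (∀ Y, InLie A Y → IsLieMatrix B (X * Y - Y * X) 0) → IsLieMatrix B X 0

/-! ### The square -/

/-- The Betti realization of `ad M ⊗ ad M`, as a space of endomorphisms of the square of the Betti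
realization of `M`: the span of the tensor products of the matrices of the action of `𝔤`. -/
def adjointSquare (B : Fin n → Tensors A r) :
    Submodule ℚ (Matrix (Fin n × Fin n) (Fin n × Fin n) ℚ) :=
  Submodule.span ℚ {C | ∃ X Y, InLie A X ∧ InLie A Y ∧ ∃ M M', IsLieMatrix B X M ∧
    IsLieMatrix B Y M' ∧ C = M ⊗ₖ M'}

/-- The endomorphism `C` of the square of the Betti realization is a de Rham-Betti class: its matrix
in the basis of the de Rham realization has algebraic entries. -/
def IsDeRhamBettiSq (P : Matrix (Fin n) (Fin n) ℂ)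
    (C : Matrix (Fin n × Fin n) (Fin n × Fin n) ℚ) : Prop :=
  ∀ p q, IsAlgebraic ℚ (((P⁻¹ ⊗ₖ P⁻¹) * C.map (fun x => (x : ℂ)) * (P ⊗ₖ P)) p q)

/-- The endomorphism `C` of the square of the Betti realization is a Hodge class, if it is in
`ad M ⊗ ad M` (so that it respects the weights): it commutes with the action of the complex
structure `N` on the square. -/
def IsHodgeSq (N : Matrix (Fin n) (Fin n) ℝ)
    (C : Matrix (Fin n × Fin n) (Fin n × Fin n) ℚ) : Prop :=
  (N ⊗ₖ (1 : Matrix (Fin n) (Fin n) ℝ) + (1 : Matrix (Fin n) (Fin n) ℝ) ⊗ₖ N) *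
      C.map (fun x => (x : ℝ)) =
    C.map (fun x => (x : ℝ)) *
      (N ⊗ₖ (1 : Matrix (Fin n) (Fin n) ℝ) + (1 : Matrix (Fin n) (Fin n) ℝ) ⊗ₖ N)

/-! ### Algebraic groups, torsors and the Mumford-Tate group -/

/-- A subgroup of `GL_R(ℂ)` defined by polynomials with rational coefficients. -/
def IsAlgebraicSubgroup {R : Type} [Fintype R] [DecidableEq R] (G : Subgroup (GL R ℂ)) : Prop :=
  ∃ I : Set (MvPolynomial (R × R) ℚ), ∀ x : GL R ℂ, x ∈ G ↔
    ∀ p ∈ I, MvPolynomial.aeval (fun b : R × R => (x : Matrix R R ℂ) b.1 b.2) p = 0

/-- The torsor `G · T⁻¹` of `G`: the matrices `F` such that `F T` is an element of `G`. It is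
defined over `ℚ̄` if `T` is a matrix with algebraic entries. -/
def torsor (G : Subgroup (GL (Fin n) ℂ)) (T : Matrix (Fin n) (Fin n) ℂ) :
    Set (Matrix (Fin n) (Fin n) ℂ) :=
  {F | ∃ x ∈ G, (x : Matrix (Fin n) (Fin n) ℂ) = F * T}

variable (A) in
/-- The Hodge structure of `H^1(A)`: the complex number `z` acts on `H_1(A, ℝ) = ℂ ^ g` by
multiplication, and on `H^1(A, ℝ)` by the transposed map, here in the basis of `H^1(A, ℚ)` which is
dual to the basis of the lattice. -/
def hodge (z : ℂ) : Matrix (Fin (2 * g)) (Fin (2 * g)) ℂ :=
  Matrix.of fun i j => ((A.lam.repr (z • A.lam i) j : ℝ) : ℂ)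

/-- `R` is the matrix of the action of the complex number `z` on `M`, in the Hodge structure given by
those of `H^1(A)` and of the Tate motives (`z` acts on `ℚ(1)` by `(z z̄)⁻¹`). -/
def IsHodgeMatrix (B : Fin n → Tensors A r) (z : ℂ) (R : Matrix (Fin n) (Fin n) ℂ) : Prop :=
  ∀ a i (j : Fin (r i) → Fin (2 * g)),
    ∑ j' : Fin (r i) → Fin (2 * g), (∏ k, hodge A z (j k) (j' k)) *
        (B a i (fun k => Pi.single (j' k) 1) : ℂ) =
      (z * (starRingEnd ℂ) z) ^ (w i) * ∑ b, R b a * (B b i (fun k => Pi.single (j k) 1) : ℂ)

/-- The Mumford-Tate group of `M`: the smallest algebraic group over `ℚ` which contains the image of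
the Deligne torus. -/
def mumfordTate (B : Fin n → Tensors A r) : Subgroup (GL (Fin n) ℂ) :=
  sInf {G | IsAlgebraicSubgroup G ∧ ∀ z : ℂ, z ≠ 0 → ∃ x ∈ G,
    IsHodgeMatrix w B z (x : Matrix (Fin n) (Fin n) ℂ)}

variable (A) in
/-- There is no factor of type IV: the Rosati involution is trivial on the centre of the algebra of
the endomorphisms, that is, the centre contains no nonzero element which is skew-symmetric for the
polarization `A.om`. (The endomorphisms of the de Rham-Betti object `H_1(A)` are the endomorphisms of
`A` by the theorem of Bost, which is proved in `Pool.Agent.Y102.AbVar.hodge_end`.) -/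
def NoFactorOfTypeIV : Prop :=
  ∀ P : Module.End ℚ A.H1, IsDeRhamBettiEnd QBar A.dR P →
    (∀ Q : Module.End ℚ A.H1, IsDeRhamBettiEnd QBar A.dR Q → P * Q = Q * P) →
    (∀ u v, A.om (P u) v + A.om u (P v) = 0) → P = 0

/-- **Theorem.** Let `M` be a motive in the tensor category generated by `h^1(A)` and the Tate motives,
with the matrix `P` of periods, and let `G` be an algebraic group over `ℚ` with a torsor over `ℚ̄` which
contains `P`. Then there is a de Rham-Betti class in `ad M ⊗ ad M` which is not a Hodge class, or:

1. for all elements `Z` of the derived algebra of the Lie algebra of the Hodge group of `M` and all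
   complex numbers `t` the matrix `exp (t Z)` is in `G`;
2. if `A` has no factor of type IV, or if the centre acts trivially on `M`, then the Mumford-Tate group
   of `M` is contained in `G`. -/
theorem result {g s n : ℕ} (A : AbVar g) (r : Fin s → ℕ) (w : Fin s → ℤ)
    (B : Fin n → Tensors A r) (P : Matrix (Fin n) (Fin n) ℂ) (hM : IsMotive w B P)
    (N : Matrix (Fin n) (Fin n) ℝ) (hN : IsComplexStructure B N)
    (G : Subgroup (GL (Fin n) ℂ)) (hG : IsAlgebraicSubgroup G) (T : Matrix (Fin n) (Fin n) ℂ)
    (hT : ∀ i j, IsAlgebraic ℚ (T i j)) (hP : P ∈ torsor G T) :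
    (∃ C ∈ adjointSquare B, IsDeRhamBettiSq P C ∧ ¬ IsHodgeSq N C) ∨
    ((∀ Z ∈ derived (hodgeLie N), ∀ t : ℂ, ∃ x ∈ G,
      (x : Matrix (Fin n) (Fin n) ℂ) = NormedSpace.exp (t • Z.map fun q => (q : ℂ))) ∧
    (NoFactorOfTypeIV A ∨ CentreActsTrivially B → mumfordTate w B ≤ G)) := by
  refine or_iff_not_imp_left.2 fun hno => ?_
  have hsq : ∀ C ∈ adjointSquare B, IsDeRhamBettiSq P C → IsHodgeSq N C := by
    intro C hC hC'
    by_contra hcon
    exact hno ⟨C, hC, hC', hcon⟩
  clear hno
  obtain ⟨hM', Wt, hW⟩ : N208.AM.Mot w B P ∧ ∃ Wt, N208.AM.WRel w B Wt := by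
    have hwt : ∃ M, N208.AM.WRel w B M := by
      obtain ⟨M, h⟩ := hM.weight
      refine ⟨M, fun a i => MultilinearMap.ext fun v => ?_⟩
      rw [_root_.smul_apply, _root_.sum_apply, smul_eq_mul, h a i v]
      rfl
    refine ⟨⟨hM.basis, fun X hX => ?_, hwt, hM.det, hM.deRham⟩, hwt⟩
    obtain ⟨M, h⟩ := hM.lie X hX
    refine ⟨M, fun a i => MultilinearMap.ext fun v => ?_⟩
    rw [N208.AM.dact_apply, _root_.sum_apply, h a i v]
    rfl
  have hrelL : ∀ X M, N208.AM.Rel B X M ↔ IsLieMatrix B X M := by
    intro X M
    constructor
    · intro h a i v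
      have h1 := congrArg (fun φ : MultilinearMap ℚ (fun _ : Fin (r i) => A.H1) ℚ => φ v) (h a i)
      simp only [N208.AM.dact_apply, _root_.sum_apply, _root_.smul_apply, smul_eq_mul] at h1
      exact h1
    · intro h a i
      refine MultilinearMap.ext fun v => ?_
      rw [N208.AM.dact_apply, _root_.sum_apply, h a i v]
      rfl
  have hb : ∀ j : Fin (2 * g), A.bas j = Pi.single j 1 := fun j => by
    unfold AbVar.bas
    rw [Pi.basisFun_apply]
  have hrel : ∀ z R, N208.AM.HRel w B z R → IsHodgeMatrix w B z R := by
    intro z R h a i j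
    have h1 := h a i j
    simp only [hb] at h1
    exact h1
  have hA' : NoFactorOfTypeIV A → N208.AM.NT4 A := fun hA P hP hc hs =>
    hA P (A.mem_EA.1 hP) (fun Q hQ => hc Q (A.mem_EA.2 hQ)) hs
  have hNC : CentreActsTrivially B → N208.AM.NoCentre B := fun hc X hX h =>
    (hrelL X 0).2 (hc X hX fun Y hY => (hrelL _ 0).1 (h Y hY))
  -- the complex structure
  have hNR : N208.AM.RelR B AbVar.JJ N := by
    intro a i
    refine Basis.ext_multilinear (fun _ => A.lam) fun j => ?_
    have h1 := hN a i j
    rw [N208.AM.dact_apply, _root_.sum_apply]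
    have h2 : (fun p => A.lam (j p)) = fun p => A.per (Pi.single (j p) 1) := by
      funext p
      rw [← hb, A.per_bas]
    have h3 : ∀ b, (N b a • A.Phi (B b i)) (fun p => A.lam (j p)) =
        N b a * (B b i (fun p => Pi.single (j p) 1) : ℝ) := fun b => by
      rw [_root_.smul_apply, smul_eq_mul, h2, A.Phi_per]
    rw [Finset.sum_congr rfl fun b _ => h3 b, ← h1]
    refine Finset.sum_congr rfl fun k _ => ?_
    rw [AbVar.JJ_apply, ← A.lam.sum_repr (Complex.I • A.lam (j k)), MultilinearMap.map_update_sum]
    simp only [A.lam.sum_repr]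
    refine Finset.sum_congr rfl fun l _ => ?_
    rw [MultilinearMap.map_update_smul, smul_eq_mul]
    congr 1
    have h4 : A.lam l = A.per (Pi.single l 1) := by rw [← hb, A.per_bas]
    rw [h2, h4, N208.AM.update_per, A.Phi_per]
  have hs : N208.TS.SqHodge B P N := by
    intro C hC hC'
    have h1 : C ∈ adjointSquare B := by
      refine Submodule.span_mono ?_ hC
      rintro _ ⟨X, Y, hX, hY, M, M', h1, h2, rfl⟩
      exact ⟨X, Y, hX, hY, M, M', (hrelL _ _).1 h1, (hrelL _ _).1 h2, rfl⟩
    have h2 := hsq C h1 hC'
    exact sub_eq_zero.2 h2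
  -- the group
  have hdet : T.det ≠ 0 := by
    obtain ⟨x, -, hxT⟩ := hP
    intro h0
    have h1 : (x : Matrix (Fin n) (Fin n) ℂ).det = 0 := by
      rw [hxT, Matrix.det_mul, h0, mul_zero]
    exact (Matrix.GeneralLinearGroup.det x).ne_zero h1
  obtain ⟨T', h1, h2⟩ := Pool.Agent.R917.alg_inv hT hdet
  obtain ⟨x, hx, hxT⟩ := hP
  have hH : N208.AM.PtM P _ := ⟨Pool.Agent.R917.algGrp_of hG, T, T', h1, h2, x, hx, hxT⟩
  refine ⟨fun Z hZ t => ?_, fun hA => ?_⟩
  · obtain ⟨L, hL1, hL2, hL3⟩ := N208.TS.sq_der hM' hW hH hNR hs
    have h3 : hodgeLie N ≤ L := sInf_le ⟨hL1, hL2⟩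
    have h4 : derived (hodgeLie N) ≤
        N208.AM.LQ {M | ∃ x ∈ G, (x : Matrix (Fin n) (Fin n) ℂ) = M} := by
      unfold derived
      rw [Submodule.span_le]
      rintro _ ⟨x, hx, y, hy, rfl⟩
      exact hL3 x (h3 hx) y (h3 hy)
    exact Pool.Agent.R917.exp_mem hH.grp fun d => (h4 hZ d).smul t
  · have hc : N208.AM.NoCentre B := hA.elim
      (fun h => N208.AM.noCentre_of_NT4 hM' (hA' h)) hNC
    refine sInf_le ⟨hG, fun z hz => ?_⟩
    obtain ⟨⟨x, hx, hx'⟩, h4⟩ := N208.TS.sq_B hM' hW hH hc hNR hs hz
    refine ⟨x, hx, ?_⟩
    rw [hx']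
    exact hrel _ _ h4

end Pool.Agent.Results.MP_f11a48_ag.TensorSquareDecides
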