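import Pool.Agent.N208.UR.One

set_option autoImplicit false

/-!
# The unipotent radical of the Mumford-Tate group of a 1-motive

Let `A` be an abelian variety over the field `ℚ̄` of algebraic numbers, with a polarization `φ`. Let
`P_i = exp(u_i)` and `Q_l = φ(exp(v_l))` be algebraic points of `A` and of the dual abelian variety,
`G_Q` the extension of `A` by `G_m^s` given by the `Q_l`, and `M = [ℤ^n → G_Q]` a 1-motive over `ℚ̄`
with the images `e_i ↦ R_i` above `P_i`. The periods of `M` are `2 π i`, the periods and
quasi-periods of `A`, the abelian integrals `u_i` and the integrals of the second kind `h_k(u_i)`,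
the periods of the third kind `∑ k, (h_k(v_l) λ_k - v_lk η_k)`, and the integrals of the third kind
`ℓ_il`. The points `R_i` are algebraic, and this means for the logarithms `ℓ_il` that

  `exp(ℓ_il) = q_il · θ(u_i - v_l) / (θ(u_i) θ(-v_l)) · exp(∑ k, h_k(v_l) u_ik)`, `q_il` algebraic:

the function `z ↦ θ(z - v) / (θ(z) θ(-v)) · exp(∑ k, h_k(v) z_k)` is the pullback of a rational
section, over `ℚ̄`, of the extension of `A` by `G_m` given by `v`. We assume that the arguments of
the theta functions are not in the divisor of `θ`. So we get all 1-motives over `A`, up to isogeny.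

The motivic Galois group of `M` is the Mumford-Tate group `MT(M)` of the mixed Hodge structure
`H_1(M)` (Brylinski, André): the smallest algebraic group over `ℚ` which contains the image of the
Deligne torus, which acts on the subspaces `I^{p,q}` of `H_1(M, ℂ)` given by Deligne's splitting.

The period conjecture says that the comparison isomorphism is a generic point, over `ℚ̄`, of its
torsor under the motivic Galois group of `M`. A consequence is that every algebraic group
`G ⊆ GL(H_B(M))` over `ℚ`, with a torsor over `ℚ̄` which contains the comparison isomorphism,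
contains the group `MT(M)` (in the terminology of André: `Ω^And = Ω^dRB`).

**Theorem.** Let `M` be any 1-motive over `ℚ̄`, with an arbitrary abelian part `A`, and let `G` be an
algebraic group over `ℚ` with a torsor over `ℚ̄` which contains the comparison isomorphism. Let `x` be
an element of `MT(M)`, and assume that there are an element `y` of `G` and a number `c ≠ 0` such that
`x` acts on the graded pieces of weight `0, -1, -2` of `H_1(M, ℂ)` as `y, c y, c² y`. Then `x ∈ G`.

* `y = 1`, `c = 1`: the group `G` contains the kernel of the action of `MT(M)` on `Gr^W H_1(M)`.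
  Since `Gr^W H_1(M)` is polarizable this is the unipotent radical of `MT(M)`.
* `y = 1`: `G` contains all elements of `MT(M)` which act on `Gr^W H_1(M)` by the weights, for example
  the images of the real numbers in the Deligne torus. So `G` contains the weight cocharacter given
  by Deligne's splitting of the weight filtration.
* `G` contains an element of `MT(M)` if (and only if) it contains an element with the same action on
  `Gr^W H_1(M) = ℤ^n ⊕ H_1(A) ⊕ ℤ(1)^s`. So the only part of the equality `Ω^And = Ω^dRB` for `M` which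
  is left open is the statement for the abelian variety `A`.

There is no condition on `A` and no condition on the points; the deficient 1-motives of Ribet and
Jacquinot are included. The theorem of `OneMotivesMumfordTate` gives `MT(M) ⊆ G` if the Hodge group
of `A` is determined by the endomorphisms of `A` (or of a larger abelian variety). This is not the
case, for example, for the abelian varieties of dimension at least two with `End(A) = ℤ` and the
symplectic group as the Hodge group, since the symplectic group has proper irreducible subgroups over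
`ℚ`; for these varieties the equality `Ω^And = Ω^dRB` is not known even for `A` itself.

## Proof

Let `𝔤` be the Lie algebra of `G`, acting on `H_1(M, ℚ)`, and `𝔲` the subspace of the elements which
act on `Gr^W` by zero. The theorems of Wüstholz and of Bost and Charles show that the part of `𝔲` in
weight `-1` is given by the relations between the points `P_i, Q_l`, so it is stable under the
Lie algebra of the Hodge group of `A`, in particular under the complex structure `J`, which is perhaps
not in the image of `𝔤`. Let `J_M` be the logarithm of the action of the circle given by the Hodge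
structure of `M`. We show that `[J_M, 𝔲] ⊆ 𝔲`, and that `[J_M, W] ∈ 𝔲` if `W ∈ 𝔤` acts on `Gr^W` by the
weights; such an element `W` exists because `π` is transcendental (`weight`). For the part of weight
`-2` we use the theorem that the logarithmic forms which vanish on `𝔤` give symmetric forms on the
relations (`sym_of_phi`, `sum_E_I`). It is proved in `Pool.Agent.R917.BX` that the logarithm of the
weight cocharacter of Deligne's splitting is in `𝔤` (`tW_mem`).

So the Deligne torus is contained in the algebraic group `K` over `ℚ` of all elements `x` which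
preserve the weight filtration and the space `𝔲`, and for which `x W x⁻¹ - W ∈ 𝔲` (`KK`, `exists_W`).
Hence `MT(M) ⊆ K`. An element `y` of `G` which preserves the weight filtration is also in `K`. Let
`x ∈ K` be an element with trivial action on `Gr^W`, and `N = log x`. Then `x W x⁻¹ - W = [N, W]`, since
`[N, [N, W]] = 0`, and `N` is a combination of `[N, W]` and `[[N, W], W]`. So `N ∈ 𝔲` and `x ∈ G`.
-/

open Module Matrix Pool.Agent.Y102 Pool.Agent.R917.OM Pool.Agent.R917.BX Pool.Agent.W516.DR
  Pool.Agent.H204R3.GP Pool.Agent.N208.UR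

noncomputable section

namespace Pool.Agent.Results.MP_5d33ca_ag.UnipotentRadical

section Motives

variable {g n s : ℕ} (A : AbVarG g)

/-! ### 1-motives and their periods -/

/-- The basis of the Betti realization of the 1-motive: the basis `λ_j` of the lattice of `A`, the
basis `γ_l` of `H_1(G_m^s)`, the basis `e_i` of `ℤ^n`. -/
abbrev Betti (g n s : ℕ) : Type := Fin (2 * g) ⊕ (Fin s ⊕ Fin n)

/-- The basis of the de Rham cohomology of the 1-motive: the invariant differentials `d z_k` and the
differentials of the second kind `d h_k` on `A`, the invariant differentials of the third kind `ω_l`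
on the semiabelian variety, and a basis for `ℤ^n`. -/
abbrev DeRham (g n s : ℕ) : Type := (Fin g ⊕ Fin g) ⊕ (Fin s ⊕ Fin n)

/-- The integral of the second kind `h_k = ∂ k (log θ 0)`, with the value zero at the origin. -/
def second (k : Fin g) (z : Fin g → ℂ) : ℂ := pd k (A.θ 0) z / A.θ 0 z - pd k (A.θ 0) 0

/-- The comparison isomorphism of the 1-motive. The rows are the Betti side. -/
def periodMatrix (u : Fin n → Fin g → ℂ) (v : Fin s → Fin g → ℂ) (ℓ : Fin n → Fin s → ℂ) :
    Matrix (Betti g n s) (DeRham g n s) ℂ := Matrix.of fun r c =>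
  match r, c with
  | Sum.inl j, Sum.inl (Sum.inl k) => A.lam j k
  | Sum.inl j, Sum.inl (Sum.inr k) => A.η j k
  | Sum.inl j, Sum.inr (Sum.inl l) => ∑ k, (second A k (v l) * A.lam j k - v l k * A.η j k)
  | Sum.inr (Sum.inl l), Sum.inr (Sum.inl l') => if l = l' then 2 * Real.pi * Complex.I else 0
  | Sum.inr (Sum.inr i), Sum.inl (Sum.inl k) => u i k
  | Sum.inr (Sum.inr i), Sum.inl (Sum.inr k) => second A k (u i)
  | Sum.inr (Sum.inr i), Sum.inr (Sum.inl l) => ℓ i l
  | Sum.inr (Sum.inr i), Sum.inr (Sum.inr i') => if i = i' then 1 else 0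
  | _, _ => 0

/-- The data `u_i, v_l, ℓ_il` of a 1-motive over the algebraic numbers: the points of `A` and of the
dual abelian variety are algebraic, and so are the points of the extension, in terms of the
trivialization by the function `θ(z - v) / (θ(z) θ(-v)) · exp(∑ k, h_k(v) z_k)`. The vectors are
chosen outside of the divisor of the theta function. -/
structure IsOneMotive (u : Fin n → Fin g → ℂ) (v : Fin s → Fin g → ℂ) (ℓ : Fin n → Fin s → ℂ) :
    Prop where
  point : ∀ i, IsPoint A.toAbVar (u i)
  dual : ∀ l, IsPoint A.toAbVar (v l)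
  neg : ∀ l, IsPoint A.toAbVar (-v l)
  sub : ∀ i l, IsPoint A.toAbVar (u i - v l)
  log : ∀ i l, ∃ q : ℂ, IsAlgebraic ℚ q ∧ Complex.exp (ℓ i l) =
    q * (A.θ 0 (u i - v l) / (A.θ 0 (u i) * A.θ 0 (-v l))) *
      Complex.exp (∑ k, second A k (v l) * u i k)

/-! ### Algebraic groups which contain the periods -/

/-- A subgroup of `GL_R(ℂ)` defined by polynomials with rational coefficients. -/
def IsAlgebraicSubgroup {R : Type} [Fintype R] [DecidableEq R] (G : Subgroup (GL R ℂ)) : Prop :=
  ∃ I : Set (MvPolynomial (R × R) ℚ), ∀ x : GL R ℂ, x ∈ G ↔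
    ∀ p ∈ I, MvPolynomial.aeval (fun b : R × R => (x : Matrix R R ℂ) b.1 b.2) p = 0

/-- The comparison isomorphism `c` is an element of a torsor `G · T⁻¹` of `G`, defined over the
algebraic numbers: `T` is a matrix with algebraic entries (an isomorphism between the Betti side and
the de Rham side) such that `c T ∈ G`. -/
def ContainsPeriods (u : Fin n → Fin g → ℂ) (v : Fin s → Fin g → ℂ) (ℓ : Fin n → Fin s → ℂ)
    (G : Subgroup (GL (Betti g n s) ℂ)) : Prop :=
  ∃ T : Matrix (DeRham g n s) (Betti g n s) ℂ, (∀ i j, IsAlgebraic ℚ (T i j)) ∧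
    ∃ x ∈ G, (x : Matrix (Betti g n s) (Betti g n s) ℂ) = periodMatrix A u v ℓ * T

/-! ### The mixed Hodge structure and the Mumford-Tate group -/

/-- The Hodge filtration: the vectors of `H_1(M, ℂ)` (in terms of their coordinates) on which the
invariant differentials of the semiabelian variety vanish. -/
def F0 (u : Fin n → Fin g → ℂ) (v : Fin s → Fin g → ℂ) (ℓ : Fin n → Fin s → ℂ)
    (x : Betti g n s → ℂ) : Prop :=
  (∀ k, ∑ r, x r * periodMatrix A u v ℓ r (Sum.inl (Sum.inl k)) = 0) ∧
    ∀ l, ∑ r, x r * periodMatrix A u v ℓ r (Sum.inr (Sum.inl l)) = 0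

/-- The part of weight `≤ -1` of the homology, the homology of the semiabelian variety. -/
def W1 (x : Betti g n s → ℂ) : Prop := ∀ i, x (Sum.inr (Sum.inr i)) = 0

/-- The part of weight `≤ -2` of the homology, the homology of the torus. -/
def W2 (x : Betti g n s → ℂ) : Prop :=
  (∀ j, x (Sum.inl j) = 0) ∧ ∀ i, x (Sum.inr (Sum.inr i)) = 0

/-- The complex conjugate vector. -/
def bar (x : Betti g n s → ℂ) : Betti g n s → ℂ := fun r => (starRingEnd ℂ) (x r)

/-- The matrix `M` gives the action of the element `z` of the Deligne torus on the homology of the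
1-motive (vectors are rows): it acts by `1` on `I^{0,0} = F^0 ∩ (F̄^0 + W_{-2})`, by `z̄` on
`I^{0,-1} = F^0 ∩ W_{-1}`, by `z` on its complex conjugate `I^{-1,0}` and by `z z̄` on
`I^{-1,-1} = W_{-2}`. -/
structure IsDeligne (u : Fin n → Fin g → ℂ) (v : Fin s → Fin g → ℂ) (ℓ : Fin n → Fin s → ℂ)
    (z : ℂ) (M : Matrix (Betti g n s) (Betti g n s) ℂ) : Prop where
  zero_zero : ∀ x y w, F0 A u v ℓ x → F0 A u v ℓ y → W2 w → x = bar y + w → x ᵥ* M = x
  zero_neg : ∀ x, F0 A u v ℓ x → W1 x → x ᵥ* M = (starRingEnd ℂ) z • x
  neg_zero : ∀ x, F0 A u v ℓ x → W1 x → bar x ᵥ* M = z • bar x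
  neg_neg : ∀ x, W2 x → x ᵥ* M = (z * (starRingEnd ℂ) z) • x

/-- The Mumford-Tate group of the 1-motive: the smallest algebraic group over `ℚ` which contains the
image of the Deligne torus. -/
def mumfordTate (u : Fin n → Fin g → ℂ) (v : Fin s → Fin g → ℂ) (ℓ : Fin n → Fin s → ℂ) :
    Subgroup (GL (Betti g n s) ℂ) :=
  sInf {G | IsAlgebraicSubgroup G ∧ ∀ z : ℂ, z ≠ 0 → ∃ x ∈ G,
    IsDeligne A u v ℓ z (x : Matrix (Betti g n s) (Betti g n s) ℂ)}

/-! ### The action on the graded pieces -/

/-- The matrices `M` and `M'` act in the same way on the graded pieces of the weight filtration of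
the homology, up to the weight cocharacter: `M` acts as `M'` on the part of weight `0`, as `c M'` on
the part of weight `-1` and as `c² M'` on the part of weight `-2`. -/
structure SameGraded (c : ℂ) (M M' : Matrix (Betti g n s) (Betti g n s) ℂ) : Prop where
  weight_zero : ∀ x : Betti g n s → ℂ, W1 (x ᵥ* M - x ᵥ* M')
  weight_one : ∀ x : Betti g n s → ℂ, W1 x → W2 (x ᵥ* M - c • (x ᵥ* M'))
  weight_two : ∀ x : Betti g n s → ℂ, W2 x → x ᵥ* M = c ^ 2 • (x ᵥ* M')

/-! ### Proofs -/

/-- the data of the 1-motive -/
def dat (u : Fin n → Fin g → ℂ) (v : Fin s → Fin g → ℂ) (ℓ : Fin n → Fin s → ℂ) : Dt g n s where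
  P := Sum.elim (fun i => Sum.elim (u i) (fun k => second A k (u i)))
    (fun l => Sum.elim (v l) (fun k => second A k (v l)))
  ℓ := ℓ

theorem per_eb (j : Fin (2 * g)) (k : Fin g) : A.dR (Sum.inl k) (eb A.toAbVar j) = A.lam j k := by
  change A.per (Pi.single j 1) k = _
  unfold AbVar.per
  rw [Fintype.linearCombination_apply_single, one_smul]

theorem eta_eb (j : Fin (2 * g)) (k : Fin g) : A.dR (Sum.inr k) (eb A.toAbVar j) = A.η j k := by
  change A.eta (Pi.single j 1) k = _
  unfold AbVar.eta
  rw [Fintype.linearCombination_apply_single, one_smul]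

theorem periodMatrix_eq (u : Fin n → Fin g → ℂ) (v : Fin s → Fin g → ℂ)
    (ℓ : Fin n → Fin s → ℂ) : periodMatrix A u v ℓ = pmat A.toAbVar (dat A u v ℓ) := by
  ext r c
  rcases r with j | l | i <;> rcases c with (k | k) | l' | i' <;>
    simp [periodMatrix, pmat, dat, per_eb, eta_eb, thd, tau]

end Motives

section Lev

variable {g n s : ℕ}

theorem single_row (M : Matrix (Betti g n s) (Betti g n s) ℂ) (r : Betti g n s) :
    (Pi.single r (1 : ℂ) : Betti g n s → ℂ) ᵥ* M = M r := by
  rw [Matrix.single_one_vecMul]
  rfl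

/-- The elements of level zero, in terms of blocks. -/
theorem fl_zero_of_same {c : ℂ} (hc : c ≠ 0) {M M' : Matrix (Betti g n s) (Betti g n s) ℂ}
    (h : SameGraded c M M') (hM : M ∈ Fl (lev g n s) 0) : M' ∈ Fl (lev g n s) 0 := by
  intro r r' hr
  have h0 := hM r r' hr
  rcases r with j | l | i
  · rcases r' with j' | l' | i'
    · simp [lev] at hr
    · simp [lev] at hr
    · have h1 := (h.weight_one (Pi.single (Sum.inl j) 1) fun i => by
        rw [Pi.single_eq_of_ne (by simp)]).2 i'
      rw [single_row, single_row, Pi.sub_apply, Pi.smul_apply, h0, zero_sub, neg_eq_zero,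
        smul_eq_mul] at h1
      exact (mul_eq_zero.1 h1).resolve_left hc
  · have h1 := congrFun (h.weight_two (Pi.single (Sum.inr (Sum.inl l)) 1) ⟨fun j => by
      rw [Pi.single_eq_of_ne (by simp)], fun i => by
      rw [Pi.single_eq_of_ne (by simp)]⟩) r'
    rw [single_row, single_row, Pi.smul_apply, h0, smul_eq_mul] at h1
    exact (mul_eq_zero.1 h1.symm).resolve_left (pow_ne_zero 2 hc)
  · simp [lev] at hr

/-- the weights -/
def wt (g n s : ℕ) (c : ℂ) : Matrix (Betti g n s) (Betti g n s) ℂ :=
  Matrix.diagonal fun r => c ^ lev g n s r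

theorem fl_one_of_same {c : ℂ} {M M' : Matrix (Betti g n s) (Betti g n s) ℂ}
    (h : SameGraded c M M') (hM : M ∈ Fl (lev g n s) 0) (hM' : M' ∈ Fl (lev g n s) 0) :
    M - M' * wt g n s c ∈ Fl (lev g n s) 1 := by
  intro r r' hr
  rw [Matrix.sub_apply, wt, Matrix.mul_diagonal]
  by_cases hr' : lev g n s r' < lev g n s r + 0
  · rw [hM r r' hr', hM' r r' hr', zero_mul, sub_zero]
  · have hr2 : lev g n s r' = lev g n s r := by omega
    rw [hr2]
    rcases r with j | l | i
    · rcases r' with j' | l' | i'
      · have h1 := (h.weight_one (Pi.single (Sum.inl j) 1) fun i => by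
          rw [Pi.single_eq_of_ne (by simp)]).1 j'
        rw [single_row, single_row, Pi.sub_apply, Pi.smul_apply, smul_eq_mul] at h1
        have h2 : lev g n s (Sum.inl j) = 1 := rfl
        rw [h2, pow_one]
        linear_combination h1
      · simp [lev] at hr2
      · simp [lev] at hr2
    · have h1 := congrFun (h.weight_two (Pi.single (Sum.inr (Sum.inl l)) 1) ⟨fun j => by
        rw [Pi.single_eq_of_ne (by simp)], fun i => by
        rw [Pi.single_eq_of_ne (by simp)]⟩) r'
      rw [single_row, single_row, Pi.smul_apply, smul_eq_mul] at h1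
      have h2 : lev g n s (Sum.inr (Sum.inl l)) = 2 := rfl
      rw [h2, h1]
      ring
    · rcases r' with j' | l' | i'
      · simp [lev] at hr2
      · simp [lev] at hr2
      · have h1 := h.weight_zero (Pi.single (Sum.inr (Sum.inr i)) 1) i'
        rw [single_row, single_row, Pi.sub_apply] at h1
        have h2 : lev g n s (Sum.inr (Sum.inr i)) = 0 := rfl
        rw [h2, pow_zero, mul_one]
        exact h1

end Lev

section Main

variable {g n s : ℕ} (A : AbVarG g)

/-- The exponential of the operators of the Hodge structure. -/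
theorem deligne_exp {u : Fin n → Fin g → ℂ} {v : Fin s → Fin g → ℂ} {ℓ : Fin n → Fin s → ℂ} {z : ℂ}
    (hz : z ≠ 0) {y : Matrix (Betti g n s) (Betti g n s) ℂ}
    (hy : y = NormedSpace.exp (((Complex.log z).re : ℂ) • XW A.toAbVar (dat A u v ℓ) +
      ((Complex.log z).im : ℂ) • XJ A.toAbVar (dat A u v ℓ))) : IsDeligne A u v ℓ z y := by
  have hM : ∀ (v' : Betti g n s → ℂ) (a b : ℂ), v' ᵥ* XW A.toAbVar (dat A u v ℓ) = a • v' →
      v' ᵥ* XJ A.toAbVar (dat A u v ℓ) = b • v' →
      v' ᵥ* y = Complex.exp ((Complex.log z).re * a + (Complex.log z).im * b) • v' := by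
    intro v' a b ha hb
    rw [hy]
    refine vecMul_exp ?_
    rw [Matrix.vecMul_add, Matrix.vecMul_smul, Matrix.vecMul_smul, ha, hb, smul_smul, smul_smul,
      ← add_smul]
  have hlog : ((Complex.log z).re : ℂ) + (Complex.log z).im * Complex.I = Complex.log z :=
    Complex.re_add_im _
  have hexp := Complex.exp_log hz
  have hconj : Complex.exp ((starRingEnd ℂ) (Complex.log z)) = (starRingEnd ℂ) z := by
    rw [Complex.exp_conj, hexp]
  have hlog' : ((Complex.log z).re : ℂ) - (Complex.log z).im * Complex.I =
      (starRingEnd ℂ) (Complex.log z) := by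
    apply Complex.ext <;> simp
  have hF : ∀ a, F0 A u v ℓ a → (∀ k, i1 A.toAbVar (dat A u v ℓ) a k = 0) ∧
      ∀ l, i3 A.toAbVar (dat A u v ℓ) a l = 0 := by
    rintro a ⟨ha1, ha2⟩
    rw [periodMatrix_eq] at ha1 ha2
    exact ⟨ha1, ha2⟩
  refine ⟨fun a b w ha hb hw hab => ?_, fun a ha ha1 => ?_, fun a ha ha1 => ?_,
    fun a ha => ?_⟩
  · obtain ⟨e1, e2⟩ := eig_0 (A := A.toAbVar) (d := dat A u v ℓ) (v := a) (f := b)
      (fun j => by rw [hab, Pi.add_apply, hw.1, add_zero]; rfl)
      (fun i => by rw [hab, Pi.add_apply, hw.2, add_zero]; rfl) (hF a ha).1 (hF a ha).2 (hF b hb).1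
    have h3 := hM a 0 0 e1 e2
    rwa [mul_zero, mul_zero, add_zero, Complex.exp_zero, one_smul] at h3
  · obtain ⟨e1, e2⟩ := eig_m (A := A.toAbVar) (d := dat A u v ℓ) (v := a) ha1 (hF a ha).1
      (hF a ha).2
    have h3 := hM a 1 (-Complex.I) (by rw [one_smul]; exact e1) e2
    rw [h3, ← hconj, ← hlog']
    congr 2
    ring
  · obtain ⟨e1, e2⟩ := eig_p (A := A.toAbVar) (d := dat A u v ℓ) (v := bar a) (w := a)
      (fun r => rfl) ha1 (hF a ha).1 (hF a ha).2
    have h3 := hM (bar a) 1 Complex.I (by rw [one_smul]; exact e1) e2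
    rw [h3, mul_one, hlog, hexp]
  · obtain ⟨e1, e2⟩ := eig_t (A := A.toAbVar) (d := dat A u v ℓ) (v := a) ha.1 ha.2
    have h3 := hM a 2 0 e1 e2
    rw [h3]
    congr 1
    rw [mul_zero, add_zero]
    have h4 : z * (starRingEnd ℂ) z =
        Complex.exp (Complex.log z) * Complex.exp ((starRingEnd ℂ) (Complex.log z)) := by
      rw [hexp, hconj]
    rw [h4, ← Complex.exp_add]
    congr 1
    linear_combination hlog + hlog'

end Main

/-- **Theorem.** Let `M` be a 1-motive over `ℚ̄`, and let `G` be an algebraic group over `ℚ` with a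
torsor over `ℚ̄` which contains the comparison isomorphism of `M`. An element of the Mumford-Tate
group of `M` is contained in `G` if it acts on the graded pieces of the weight filtration like an
element of `G`, up to the weight cocharacter. -/
theorem result (g n s : ℕ) (A : AbVarG g) (u : Fin n → Fin g → ℂ) (v : Fin s → Fin g → ℂ)
    (ℓ : Fin n → Fin s → ℂ) (hM : IsOneMotive A u v ℓ)
    (G : Subgroup (GL (Betti g n s) ℂ)) (hG : IsAlgebraicSubgroup G)
    (hP : ContainsPeriods A u v ℓ G) (x : GL (Betti g n s) ℂ) (hx : x ∈ mumfordTate A u v ℓ)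
    (y : GL (Betti g n s) ℂ) (hy : y ∈ G) (c : ℂ) (hc : c ≠ 0)
    (hxy : SameGraded c (x : Matrix (Betti g n s) (Betti g n s) ℂ)
      (y : Matrix (Betti g n s) (Betti g n s) ℂ)) : x ∈ G := by
  obtain ⟨T, hT, p, hp, hpT⟩ := hP
  rw [periodMatrix_eq] at hpT
  have hpt := ptM_of hG hT hp hpT
  obtain ⟨K₁, hK₁, hrat⟩ := exists_rat_mult A (pt (dat A u v ℓ)) (by
    rintro (i | l)
    · exact Or.inl (hM.point i)
    · exact Or.inl (hM.dual l))
  obtain ⟨Wq, hW1, hW2, hXW, hK⟩ := exists_W hpt ⟨hM.point, hM.neg, hM.sub, hM.log⟩ hrat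
  -- the Mumford-Tate group is contained in the normalizer
  have hxK : x ∈ KK (lev g n s) {M | ∃ x ∈ G, (x : Matrix (Betti g n s) (Betti g n s) ℂ) = M}
      (cqm Wq) := by
    have h1 : mumfordTate A u v ℓ ≤ KK (lev g n s)
        {M | ∃ x ∈ G, (x : Matrix (Betti g n s) (Betti g n s) ℂ) = M} (cqm Wq) := by
      refine sInf_le ⟨KK_alg hpt.grp Wq, fun z hz => ?_⟩
      exact ⟨_, hK _ _ (Pool.Agent.N208.AM.eG _) rfl, deligne_exp A hz rfl⟩
    exact h1 hx
  -- the weight cocharacter
  obtain ⟨w, hw, hwe⟩ := Pool.Agent.R917.exp_mem hpt.grp fun k => (hXW k).smul (Complex.log c)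
  have hw1 : (w : Matrix (Betti g n s) (Betti g n s) ℂ) - wt g n s c ∈ Fl (lev g n s) 1 := by
    rw [hwe]
    exact exp_weight hc (XW_sub _ _)
  have hy0 := fl_zero_of_same hc hxy hxK.1
  have h1 : (x : Matrix (Betti g n s) (Betti g n s) ℂ) - ((y * w : GL (Betti g n s) ℂ) :
      Matrix (Betti g n s) (Betti g n s) ℂ) ∈ Fl (lev g n s) 1 := by
    have h2 : (x : Matrix (Betti g n s) (Betti g n s) ℂ) - ((y * w : GL (Betti g n s) ℂ) :
        Matrix (Betti g n s) (Betti g n s) ℂ) =
        ((x : Matrix (Betti g n s) (Betti g n s) ℂ) - y * wt g n s c) -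
          (y : Matrix (Betti g n s) (Betti g n s) ℂ) * (w - wt g n s c) := by
      rw [Units.val_mul, Matrix.mul_sub]
      abel
    rw [h2]
    refine Submodule.sub_mem _ (fl_one_of_same hxy hxK.1 hy0) ?_
    have h3 := Fl_mul hy0 hw1
    rwa [zero_add] at h3
  obtain ⟨x', hx', hxx⟩ := main_KK hpt.grp lev_le hW1 hW2 hxK
    (show ((y * w : GL (Betti g n s) ℂ) : Matrix (Betti g n s) (Betti g n s) ℂ) ∈ _ from
      ⟨y * w, mul_mem hy hw, rfl⟩) h1
  rw [← Units.ext hxx]
  exact hx'

end Pool.Agent.Results.MP_5d33ca_ag.UnipotentRadical
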